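import Pool.Agent.Q53.SM.CHU

/-!
# Project SM (helper120), job CHL: the lower bound for the probability of a given density
-/

set_option autoImplicit false

namespace Pool.Agent.Q53.SM

open Finset MeasureTheory Filter Topology Pool.Agent.Q120.GM Pool.Agent.Q120.SM

theorem meas_cnt {Ω : Type} [MeasurableSpace Ω] {μ : Measure Ω} [IsProbabilityMeasure μ] {p : ℕ → ℝ}
    {A : Ω → Set ℕ} (hA : IsModel μ p A) (m h : ℕ) : Measurable fun ω => (cnt (A ω) m h : ℝ) := by
  classical
  have h1 : (fun ω => (cnt (A ω) m h : ℝ)) =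
      fun ω => ∑ i ∈ Ioc m (m + h), if i ∈ A ω then (1 : ℝ) else 0 := by
    funext ω
    rw [cnt_eq, card_filter]
    push_cast
    rfl
  rw [h1]
  exact Finset.measurable_sum _ fun i _ => Measurable.ite (hA.meas i) measurable_const measurable_const

theorem log_one_add_ge {t : ℝ} (ht : 0 ≤ t) : t - t ^ 2 ≤ Real.log (1 + t) := by
  have h1 := Real.one_sub_inv_le_log_of_pos (show 0 < 1 + t by linarith)
  refine le_trans ?_ h1
  have : 1 - (1 + t)⁻¹ = t / (1 + t) := by field_simp; ring
  rw [this, le_div_iff₀ (by linarith)]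
  nlinarith [pow_nonneg ht 3]

theorem neg_log_one_sub_le {t : ℝ} (ht : 0 ≤ t) (ht2 : t ≤ 1 / 2) :
    -Real.log (1 - t) ≤ t + 2 * t ^ 2 := by
  have h1 := Real.one_sub_inv_le_log_of_pos (show 0 < 1 - t by linarith)
  have h2 : (1 - t)⁻¹ ≤ 1 + t + 2 * t ^ 2 := by
    rw [inv_le_iff_one_le_mul₀ (by linarith)]
    nlinarith [pow_nonneg ht 3, sq_nonneg t]
  linarith

theorem t_CHL : J_CHL := by
  intro Ω _ μ _ p A hR hA a u ε δ ha hu hε hδ
  have hp : ∀ i, 0 ≤ p i := fun i => p_nonneg hA i
  have hlt := Real.tendsto_log_atTop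
  rcases hu.lt_or_eq with hu0 | hu0
  swap
  · -- `u = 0`
    subst hu0
    obtain ⟨η, hη⟩ : ∃ η : ℝ, η = min (1 / 4) (δ / (2 * a + 4)) := ⟨_, rfl⟩
    have hη0 : 0 < η := by rw [hη]; exact lt_min (by norm_num) (by positivity)
    have hη1 : η ≤ 1 / 4 := by rw [hη]; exact min_le_left _ _
    have hη2 : η * (2 * a + 4) ≤ δ := by
      have : η ≤ δ / (2 * a + 4) := by rw [hη]; exact min_le_right _ _
      rwa [le_div_iff₀ (by positivity)] at this
    filter_upwards [mean hR hp ha hη0, small_p hR.1 hη0, eventually_ge_atTop 1] with x hx hsm hx1 m hm1 hm2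
    have hx0 : 0 < x := by linarith
    have hL0 : 0 ≤ Real.log x := Real.log_nonneg hx1
    have h1 := hx m hm1 hm2
    set L := Real.log x with hL
    set h := ⌊a * L ^ 2⌋₊ with hh
    set lam := ∑ i ∈ Ioc m (m + h), p i with hlam
    obtain ⟨l1, l2⟩ := abs_le.1 h1
    have h2 := le_mgf hA (v := 0) (η := η) m h (fun i hi => hsm m hm1 i (mem_Ioc.1 hi).1) (by
      simp only [zero_sub, abs_neg, abs_one, one_mul]; linarith)
    rw [← hlam] at h2
    have hG : MeasurableSet {ω | |(cnt (A ω) m h : ℝ) - 0 * (a * L)| ≤ ε * L} :=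
      measurableSet_le (((meas_cnt hA m h).sub_const _).abs) measurable_const
    have h3 : ∫ ω, (0 : ℝ) ^ cnt (A ω) m h ∂μ ≤ μ.real {ω | |(cnt (A ω) m h : ℝ) - 0 * (a * L)| ≤ ε * L} := by
      rw [← integral_indicator_one hG]
      refine integral_mono (int_pow hA 0 m h) ((integrable_const (1 : ℝ)).indicator hG) fun ω => ?_
      by_cases hc : cnt (A ω) m h = 0
      · have hm : ω ∈ {ω | |(cnt (A ω) m h : ℝ) - 0 * (a * L)| ≤ ε * L} := by
          rw [Set.mem_ofPred_eq, hc]
          simp only [Nat.cast_zero, zero_mul, sub_zero, abs_zero]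
          positivity
        simp only [Set.indicator_of_mem hm, hc, pow_zero, Pi.one_apply, le_refl]
      · simp only [zero_pow hc]
        exact Set.indicator_nonneg (fun _ _ => zero_le_one) ω
    refine le_trans ?_ (h2.trans h3)
    rw [Real.rpow_def_of_pos hx0, ← hL]
    apply Real.exp_le_exp.2
    unfold ff
    have h4 : 0 ≤ lam := sum_nonneg fun i _ => hp i
    have h5 : lam ≤ (a + η) * L := by linarith
    have h6 : lam * (1 + 2 * η) ≤ (a + η) * L * (1 + 2 * η) := mul_le_mul_of_nonneg_right h5 (by positivity)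
    have h7 : (a + η) * (1 + 2 * η) ≤ a + δ := by nlinarith
    have h8 : (a + η) * L * (1 + 2 * η) ≤ (a + δ) * L := by
      have := mul_le_mul_of_nonneg_right h7 hL0
      linarith
    simp only [zero_mul, sub_zero, add_zero, mul_one]
    nlinarith
  -- `u > 0`
  set lu := |Real.log u| with hlu
  have hlu0 : 0 ≤ lu := abs_nonneg _
  obtain ⟨e, he⟩ : ∃ e : ℝ, e = min ε (δ / (4 * (lu + 1))) := ⟨_, rfl⟩
  have he0 : 0 < e := by rw [he]; exact lt_min hε (by positivity)
  have he1 : e ≤ ε := by rw [he]; exact min_le_left _ _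
  have he2 : e * lu ≤ δ / 4 := by
    have h1 : e ≤ δ / (4 * (lu + 1)) := by rw [he]; exact min_le_right _ _
    rw [le_div_iff₀ (by positivity)] at h1
    nlinarith
  obtain ⟨τ, hτ⟩ : ∃ τ : ℝ, τ = min (1 / 2) (e / (8 * (u * a + e))) := ⟨_, rfl⟩
  have hτ0 : 0 < τ := by rw [hτ]; exact lt_min (by norm_num) (by positivity)
  have hτ1 : τ ≤ 1 / 2 := by rw [hτ]; exact min_le_left _ _
  have hτ2 : (u * a + e) * τ ≤ e / 8 := by
    have h1 : τ ≤ e / (8 * (u * a + e)) := by rw [hτ]; exact min_le_right _ _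
    rw [le_div_iff₀ (by positivity)] at h1
    linarith
  -- the small number `η`
  obtain ⟨D, hD⟩ : ∃ D : ℝ, D = 2 * (u - 1) ^ 2 * (a + 1) + u + |u - 1| + |u * (1 + τ) - 1| +
    |u * (1 - τ) - 1| + 1 := ⟨_, rfl⟩
  have hD0 : 0 < D := by rw [hD]; positivity
  obtain ⟨η, hη⟩ : ∃ η : ℝ, η = min (min 1 (1 / (2 * D))) (min (e * τ / (2 * D)) (δ / (4 * D))) := ⟨_, rfl⟩
  have hη0 : 0 < η := by
    rw [hη]; exact lt_min (lt_min one_pos (by positivity)) (lt_min (by positivity) (by positivity))
  have hη1 : η ≤ 1 := by rw [hη]; exact (min_le_left _ _).trans (min_le_left _ _)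
  have hη2 : D * η ≤ 1 / 2 := by
    have h1 : η ≤ 1 / (2 * D) := by rw [hη]; exact (min_le_left _ _).trans (min_le_right _ _)
    rw [le_div_iff₀ (by positivity)] at h1
    linarith
  have hη3 : D * η ≤ e * τ / 2 := by
    have h1 : η ≤ e * τ / (2 * D) := by rw [hη]; exact (min_le_right _ _).trans (min_le_left _ _)
    rw [le_div_iff₀ (by positivity)] at h1
    linarith
  have hη4 : D * η ≤ δ / 4 := by
    have h1 : η ≤ δ / (4 * D) := by rw [hη]; exact (min_le_right _ _).trans (min_le_right _ _)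
    rw [le_div_iff₀ (by positivity)] at h1
    linarith
  have hDa : ∀ r : ℝ, r ≤ D → r * η ≤ D * η := fun r hr => mul_le_mul_of_nonneg_right hr hη0.le
  have a0 := abs_nonneg (u - 1)
  have a1 := abs_nonneg (u * (1 + τ) - 1)
  have a2 := abs_nonneg (u * (1 - τ) - 1)
  have a3 : 0 ≤ 2 * (u - 1) ^ 2 * (a + 1) := by positivity
  filter_upwards [mean hR hp ha hη0, small_p hR.1 hη0, eventually_ge_atTop 1,
    hlt.eventually_ge_atTop (4 * Real.log 3 / δ), hlt.eventually_ge_atTop (4 * Real.log 3 / (e * τ))]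
    with x hx hsm hx1 hLd hLe m hm1 hm2
  have hx0 : 0 < x := by linarith
  have hL0 : 0 ≤ Real.log x := Real.log_nonneg hx1
  have h1 := hx m hm1 hm2
  set L := Real.log x with hL
  set h := ⌊a * L ^ 2⌋₊ with hh
  set lam := ∑ i ∈ Ioc m (m + h), p i with hlam
  obtain ⟨l1, l2⟩ := abs_le.1 h1
  have hlam0 : 0 ≤ lam := sum_nonneg fun i _ => hp i
  have hpη : ∀ i ∈ Ioc m (m + h), p i ≤ η := fun i hi => hsm m hm1 i (mem_Ioc.1 hi).1
  set K := (u * a + e) * L with hK
  set K' := (u * a - e) * L with hK'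
  set B := Real.exp (u * a * L * Real.log u + e * L * lu) with hB
  have hB0 : 0 < B := Real.exp_pos _
  set G : Set Ω := {ω | |(cnt (A ω) m h : ℝ) - u * (a * L)| ≤ ε * L} with hGdef
  have hG : MeasurableSet G := measurableSet_le (((meas_cnt hA m h).sub_const _).abs) measurable_const
  have hs1 : 0 < 1 + τ := by linarith
  have hs2 : 0 < 1 - τ := by linarith
  -- pointwise inequality
  have hpt : ∀ ω, u ^ cnt (A ω) m h - (u * (1 + τ)) ^ cnt (A ω) m h * Real.exp (-(K * Real.log (1 + τ))) -
      (u * (1 - τ)) ^ cnt (A ω) m h * Real.exp (-(K' * Real.log (1 - τ))) ≤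
      G.indicator (fun _ => B) ω := by
    intro ω
    set c := cnt (A ω) m h with hc
    have q1 : 0 ≤ (u * (1 + τ)) ^ c * Real.exp (-(K * Real.log (1 + τ))) := by positivity
    have q2 : 0 ≤ (u * (1 - τ)) ^ c * Real.exp (-(K' * Real.log (1 - τ))) := by positivity
    have q3 : 0 ≤ G.indicator (fun _ => B) ω := Set.indicator_nonneg (fun _ _ => hB0.le) ω
    rcases le_or_gt K c with h2 | h2
    · have h3 : u ^ c ≤ (u * (1 + τ)) ^ c * Real.exp (-(K * Real.log (1 + τ))) := by
        rw [mul_pow, pow_eq_exp hs1, mul_assoc, ← Real.exp_add]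
        refine le_mul_of_one_le_right (by positivity) (Real.one_le_exp ?_)
        have := mul_le_mul_of_nonneg_right h2 (Real.log_nonneg (show 1 ≤ 1 + τ by linarith))
        linarith
      linarith
    · rcases le_or_gt (c : ℝ) K' with h3 | h3
      · have h4 : u ^ c ≤ (u * (1 - τ)) ^ c * Real.exp (-(K' * Real.log (1 - τ))) := by
          rw [mul_pow, pow_eq_exp hs2, mul_assoc, ← Real.exp_add]
          refine le_mul_of_one_le_right (by positivity) (Real.one_le_exp ?_)
          have := mul_le_mul_of_nonpos_right h3 (Real.log_nonpos hs2.le (show 1 - τ ≤ 1 by linarith))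
          linarith
        linarith
      · have h4 : |(c : ℝ) - u * (a * L)| ≤ e * L := by
          rw [abs_le]
          constructor <;> nlinarith
        have h5 : ω ∈ G := by
          rw [hGdef, Set.mem_ofPred_eq]
          exact h4.trans (mul_le_mul_of_nonneg_right he1 hL0)
        rw [Set.indicator_of_mem h5]
        have h6 : u ^ c ≤ B := by
          rw [pow_eq_exp hu0, hB]
          apply Real.exp_le_exp.2
          have h7 : ((c : ℝ) - u * (a * L)) * Real.log u ≤ e * L * lu := by
            refine (le_abs_self _).trans ?_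
            rw [abs_mul]
            exact mul_le_mul_of_nonneg_right h4 hlu0
          nlinarith
        linarith
  -- integrate
  have i0 := int_pow hA u m h
  have i1 := (int_pow hA (u * (1 + τ)) m h).mul_const (Real.exp (-(K * Real.log (1 + τ))))
  have i2 := (int_pow hA (u * (1 - τ)) m h).mul_const (Real.exp (-(K' * Real.log (1 - τ))))
  have hint := integral_mono ((i0.sub i1).sub i2) ((integrable_const B).indicator hG) hpt
  have e1 : ∫ ω, ((fun ω => u ^ cnt (A ω) m h) - (fun ω => (u * (1 + τ)) ^ cnt (A ω) m h *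
      Real.exp (-(K * Real.log (1 + τ)))) - fun ω => (u * (1 - τ)) ^ cnt (A ω) m h *
      Real.exp (-(K' * Real.log (1 - τ)))) ω ∂μ =
      (∫ ω, u ^ cnt (A ω) m h ∂μ) - (∫ ω, (u * (1 + τ)) ^ cnt (A ω) m h ∂μ) *
        Real.exp (-(K * Real.log (1 + τ))) - (∫ ω, (u * (1 - τ)) ^ cnt (A ω) m h ∂μ) *
        Real.exp (-(K' * Real.log (1 - τ))) := by
    rw [integral_sub' (i0.sub i1) i2, integral_sub' i0 i1, integral_mul_const, integral_mul_const]
  have e2 : ∫ ω, G.indicator (fun _ => B) ω ∂μ = μ.real G * B := by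
    rw [integral_indicator hG, setIntegral_const, smul_eq_mul]
  have hint' := (e1.symm.le.trans hint).trans e2.le
  set M := ∫ ω, u ^ cnt (A ω) m h ∂μ with hM
  -- bounds
  have hMl : Real.exp ((u - 1) * lam - 2 * (u - 1) ^ 2 * η * lam) ≤ M :=
    le_mgf hA m h hpη ((mul_comm _ _).trans_le (by
      rw [mul_comm]
      refine (hDa |u - 1| (by rw [hD]; linarith)).trans hη2))
  have lamle : lam ≤ (a + 1) * L := by nlinarith
  have err : 2 * (u - 1) ^ 2 * η * lam ≤ 2 * (u - 1) ^ 2 * (a + 1) * η * L := by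
    have : 2 * (u - 1) ^ 2 * η * lam ≤ 2 * (u - 1) ^ 2 * η * ((a + 1) * L) :=
      mul_le_mul_of_nonneg_left lamle (by positivity)
    linarith
  have tau_eta : (2 * (u - 1) ^ 2 * (a + 1) + u * τ) * η ≤ e * τ / 2 := by
    refine (hDa _ ?_).trans hη3
    rw [hD]
    nlinarith
  have third : Real.exp (-(e * τ / 4 * L)) ≤ 1 / 3 := by
    rw [div_le_iff₀ (by positivity)] at hLe
    have h3 : Real.log 3 ≤ e * τ / 4 * L := by linarith
    calc Real.exp (-(e * τ / 4 * L)) ≤ Real.exp (-Real.log 3) := Real.exp_le_exp.2 (by linarith)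
      _ = 1 / 3 := by rw [Real.exp_neg, Real.exp_log (by norm_num)]; norm_num
  have up : (∫ ω, (u * (1 + τ)) ^ cnt (A ω) m h ∂μ) * Real.exp (-(K * Real.log (1 + τ))) ≤ M / 3 := by
    have h2 := mgf_le hA (v := u * (1 + τ)) (by positivity) m h
    rw [← hlam] at h2
    calc _ ≤ Real.exp ((u * (1 + τ) - 1) * lam) * Real.exp (-(K * Real.log (1 + τ))) :=
          mul_le_mul_of_nonneg_right h2 (Real.exp_pos _).le
      _ = Real.exp ((u * (1 + τ) - 1) * lam - K * Real.log (1 + τ)) := by
          rw [← Real.exp_add]; ring_nf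
      _ ≤ Real.exp (((u - 1) * lam - 2 * (u - 1) ^ 2 * η * lam) + -(e * τ / 4 * L)) := by
          apply Real.exp_le_exp.2
          have h3 := log_one_add_ge hτ0.le
          have h4 : K * (τ - τ ^ 2) ≤ K * Real.log (1 + τ) :=
            mul_le_mul_of_nonneg_left h3 (by rw [hK]; positivity)
          have h5 : u * τ * lam ≤ u * τ * ((a + η) * L) :=
            mul_le_mul_of_nonneg_left (by linarith) (by positivity)
          have h6 : (2 * (u - 1) ^ 2 * (a + 1) + u * τ) * η * L ≤ e * τ / 2 * L :=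
            mul_le_mul_of_nonneg_right tau_eta hL0
          have h7 : (u * a + e) * τ * (τ * L) ≤ e / 8 * (τ * L) :=
            mul_le_mul_of_nonneg_right hτ2 (by positivity)
          have h8 : 0 ≤ e * τ * L := by positivity
          rw [hK] at h4 ⊢
          nlinarith
      _ = Real.exp ((u - 1) * lam - 2 * (u - 1) ^ 2 * η * lam) * Real.exp (-(e * τ / 4 * L)) := by
          rw [Real.exp_add]
      _ ≤ M * (1 / 3) := mul_le_mul hMl third (Real.exp_pos _).le ((Real.exp_pos _).le.trans hMl)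
      _ = M / 3 := by ring
  have dn : (∫ ω, (u * (1 - τ)) ^ cnt (A ω) m h ∂μ) * Real.exp (-(K' * Real.log (1 - τ))) ≤ M / 3 := by
    have h2 := mgf_le hA (v := u * (1 - τ)) (by positivity) m h
    rw [← hlam] at h2
    calc _ ≤ Real.exp ((u * (1 - τ) - 1) * lam) * Real.exp (-(K' * Real.log (1 - τ))) :=
          mul_le_mul_of_nonneg_right h2 (Real.exp_pos _).le
      _ = Real.exp ((u * (1 - τ) - 1) * lam - K' * Real.log (1 - τ)) := by
          rw [← Real.exp_add]; ring_nf
      _ ≤ Real.exp (((u - 1) * lam - 2 * (u - 1) ^ 2 * η * lam) + -(e * τ / 4 * L)) := by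
          apply Real.exp_le_exp.2
          have h3 := neg_log_one_sub_le hτ0.le hτ1
          have h3' : Real.log (1 - τ) ≤ -τ := by
            have := Real.log_le_sub_one_of_pos hs2
            linarith
          have h4 : u * a * L * -Real.log (1 - τ) ≤ u * a * L * (τ + 2 * τ ^ 2) :=
            mul_le_mul_of_nonneg_left h3 (by positivity)
          have h4' : e * L * Real.log (1 - τ) ≤ e * L * -τ :=
            mul_le_mul_of_nonneg_left h3' (by positivity)
          have h5 : u * τ * ((a - η) * L) ≤ u * τ * lam :=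
            mul_le_mul_of_nonneg_left (by linarith) (by positivity)
          have h6 : (2 * (u - 1) ^ 2 * (a + 1) + u * τ) * η * L ≤ e * τ / 2 * L :=
            mul_le_mul_of_nonneg_right tau_eta hL0
          have h7 : (u * a + e) * τ * (τ * L) ≤ e / 8 * (τ * L) :=
            mul_le_mul_of_nonneg_right hτ2 (by positivity)
          have h8 : 0 ≤ e * τ * L := by positivity
          have h9 : 0 ≤ e * τ ^ 2 * L := by positivity
          rw [hK']
          nlinarith
      _ = Real.exp ((u - 1) * lam - 2 * (u - 1) ^ 2 * η * lam) * Real.exp (-(e * τ / 4 * L)) := by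
          rw [Real.exp_add]
      _ ≤ M * (1 / 3) := mul_le_mul hMl third (Real.exp_pos _).le ((Real.exp_pos _).le.trans hMl)
      _ = M / 3 := by ring
  have hfin : M / 3 ≤ μ.real G * B := by linarith
  have hfin2 : M / 3 / B ≤ μ.real G := by
    rw [div_le_iff₀ hB0]
    exact hfin
  refine le_trans ?_ hfin2
  have h3e : (3 : ℝ) = Real.exp (Real.log 3) := (Real.exp_log (by norm_num)).symm
  calc x ^ (-(a * ff u) - δ) = Real.exp (L * (-(a * ff u) - δ)) := by
        rw [Real.rpow_def_of_pos hx0]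
    _ ≤ Real.exp (((u - 1) * lam - 2 * (u - 1) ^ 2 * η * lam) - Real.log 3 -
        (u * a * L * Real.log u + e * L * lu)) := by
        apply Real.exp_le_exp.2
        rw [div_le_iff₀ hδ] at hLd
        have h4 : |u - 1| * |lam - a * L| ≤ |u - 1| * (η * L) :=
          mul_le_mul_of_nonneg_left h1 (abs_nonneg _)
        have h5 : -(|u - 1| * (η * L)) ≤ (u - 1) * (lam - a * L) := by
          have := neg_abs_le ((u - 1) * (lam - a * L))
          rw [abs_mul] at this
          linarith
        have h6 : (2 * (u - 1) ^ 2 * (a + 1) + |u - 1|) * η * L ≤ δ / 4 * L := by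
          refine mul_le_mul_of_nonneg_right ((hDa _ ?_).trans hη4) hL0
          rw [hD]
          linarith
        have h7 : e * lu * L ≤ δ / 4 * L := mul_le_mul_of_nonneg_right he2 hL0
        have h8 : 0 ≤ δ * L := by positivity
        unfold ff
        nlinarith
    _ = Real.exp ((u - 1) * lam - 2 * (u - 1) ^ 2 * η * lam) / 3 / B := by
        rw [Real.exp_sub, Real.exp_sub, ← h3e]
    _ ≤ M / 3 / B := by
        refine div_le_div_of_nonneg_right (div_le_div_of_nonneg_right hMl (by norm_num)) hB0.le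

end Pool.Agent.Q53.SM
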