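import Pool.Agent.Q53.SM.Mgf

/-!
# Project SM (helper120), job CHU: Chernoff bounds for windows of length `a log² x`
-/

set_option autoImplicit false

namespace Pool.Agent.Q53.SM

open Finset MeasureTheory Filter Topology Pool.Agent.Q120.GM Pool.Agent.Q120.SM

theorem pow_eq_exp {u : ℝ} (hu : 0 < u) (n : ℕ) : u ^ n = Real.exp (n * Real.log u) := by
  rw [Real.exp_nat_mul, Real.exp_log hu]

theorem t_CHU : J_CHU := by
  intro Ω _ μ _ p A hR hA a u δ ha hδ
  have hp : ∀ i, 0 ≤ p i := fun i => p_nonneg hA i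
  -- the common estimate
  have key : 0 ≤ u → ∀ᶠ x : ℝ in atTop, ∀ m : ℕ, x - 1 < m → (m : ℝ) ≤ 2 * x → ∀ E : Set Ω,
      (∀ ω ∈ E, Real.exp (u * (a * Real.log x) * Real.log u) ≤
        u ^ cnt (A ω) m ⌊a * Real.log x ^ 2⌋₊) →
      μ.real E ≤ x ^ (-(a * ff u) + δ) := by
    intro hu
    filter_upwards [mean hR hp ha (show 0 < δ / (|u - 1| + 1) by positivity), eventually_ge_atTop 1]
      with x hx hx1 m hm1 hm2 E hE
    have hx0 : 0 < x := by linarith
    have hL0 : 0 ≤ Real.log x := Real.log_nonneg hx1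
    have h1 := hx m hm1 hm2
    set L := Real.log x with hL
    set h := ⌊a * L ^ 2⌋₊ with hh
    set lam := ∑ i ∈ Ioc m (m + h), p i with hlam
    set B := Real.exp (u * (a * L) * Real.log u) with hB
    have hB0 : 0 < B := Real.exp_pos _
    have h2 := mul_meas_ge_le_integral_of_nonneg (μ := μ) (f := fun ω => u ^ cnt (A ω) m h)
      (Eventually.of_forall fun ω => pow_nonneg hu _) (int_pow hA u m h) B
    have h3 : μ.real E ≤ μ.real {ω | B ≤ u ^ cnt (A ω) m h} := measureReal_mono fun ω hω => hE ω hω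
    have h4 := mgf_le hA hu m h
    have h5 : B * μ.real E ≤ Real.exp ((u - 1) * lam) :=
      ((mul_le_mul_of_nonneg_left h3 hB0.le).trans h2).trans h4
    have h6 : μ.real E ≤ Real.exp ((u - 1) * lam) / B := by
      rw [le_div_iff₀ hB0, mul_comm]
      exact h5
    refine h6.trans ?_
    rw [hB, ← Real.exp_sub, Real.rpow_def_of_pos hx0, ← hL]
    apply Real.exp_le_exp.2
    have h7 : (u - 1) * (lam - a * L) ≤ δ * L := by
      calc (u - 1) * (lam - a * L) ≤ |(u - 1) * (lam - a * L)| := le_abs_self _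
        _ = |u - 1| * |lam - a * L| := abs_mul _ _
        _ ≤ |u - 1| * (δ / (|u - 1| + 1) * L) := mul_le_mul_of_nonneg_left h1 (abs_nonneg _)
        _ = (|u - 1| / (|u - 1| + 1)) * (δ * L) := by ring
        _ ≤ 1 * (δ * L) := by
            refine mul_le_mul_of_nonneg_right ?_ (by positivity)
            rw [div_le_one (by positivity)]
            linarith
        _ = δ * L := one_mul _
    unfold ff
    nlinarith
  refine ⟨fun hu => ?_, fun hu0 hu1 => ?_⟩
  · have hu0 : 0 < u := by linarith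
    filter_upwards [key hu0.le] with x hx m hm1 hm2
    refine hx m hm1 hm2 _ fun ω hω => ?_
    rw [Set.mem_ofPred_eq] at hω
    rw [pow_eq_exp hu0]
    exact Real.exp_le_exp.2 (mul_le_mul_of_nonneg_right hω (Real.log_nonneg hu))
  · filter_upwards [key hu0] with x hx m hm1 hm2
    refine hx m hm1 hm2 _ fun ω hω => ?_
    rw [Set.mem_ofPred_eq] at hω
    rcases hu0.lt_or_eq with h | h
    · rw [pow_eq_exp h]
      exact Real.exp_le_exp.2 (mul_le_mul_of_nonpos_right hω (Real.log_nonpos hu0 hu1))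
    · rw [← h, zero_mul] at hω
      have h1 : cnt (A ω) m ⌊a * Real.log x ^ 2⌋₊ = 0 := by
        have : (cnt (A ω) m ⌊a * Real.log x ^ 2⌋₊ : ℝ) = 0 := le_antisymm hω (Nat.cast_nonneg _)
        exact_mod_cast this
      rw [h1, pow_zero, ← h]
      simp

end Pool.Agent.Q53.SM
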