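import Pool.Agent.Q120.SM.Stm

/-!
# Project SM (helper120): moment generating function of the number of elements in a window, and its mean
-/

set_option autoImplicit false

namespace Pool.Agent.Q53.SM

open Finset MeasureTheory Filter Topology Pool.Agent.Q120.GM Pool.Agent.Q120.SM

open Classical in
theorem cnt_eq (S : Set ℕ) (m h : ℕ) : cnt S m h = ((Ioc m (m + h)).filter (· ∈ S)).card := by
  unfold cnt
  rw [← Set.ncard_coe_finset]
  congr 1
  ext n
  simp only [Set.mem_ofPred_eq, coe_filter, mem_Ioc]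
  tauto

open Classical in
theorem pow_cnt (v : ℝ) (S : Set ℕ) (m h : ℕ) :
    v ^ cnt S m h = ∑ T ∈ (Ioc m (m + h)).powerset,
      (∏ _i ∈ T, (v - 1)) * (if ∀ i ∈ T, i ∈ S then 1 else 0) := by
  rw [cnt_eq, ← prod_const, prod_filter]
  have h1 : ∀ i ∈ Ioc m (m + h), (if i ∈ S then v else 1) = 1 + if i ∈ S then v - 1 else 0 := by
    intro i _
    split_ifs <;> ring
  rw [prod_congr rfl h1, prod_one_add]
  refine sum_congr rfl fun T _ => ?_
  rw [prod_ite_zero]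
  split_ifs <;> simp

variable {Ω : Type} [MeasurableSpace Ω] {μ : Measure Ω} [IsProbabilityMeasure μ] {p : ℕ → ℝ}
  {A : Ω → Set ℕ}

theorem int_all (hA : IsModel μ p A) (T : Finset ℕ) :
    Integrable (fun ω => (all A T).indicator (fun _ => (1 : ℝ)) ω) μ :=
  (integrable_const (1 : ℝ)).indicator (meas_all hA T)

open Classical in
theorem pow_cnt' (v : ℝ) (m h : ℕ) (ω : Ω) :
    v ^ cnt (A ω) m h = ∑ T ∈ (Ioc m (m + h)).powerset,
      (∏ _i ∈ T, (v - 1)) * (all A T).indicator (fun _ => (1 : ℝ)) ω := by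
  rw [pow_cnt]
  refine sum_congr rfl fun T _ => ?_
  congr 1
  by_cases h : ∀ i ∈ T, i ∈ A ω
  · rw [if_pos h, Set.indicator_of_mem (show ω ∈ all A T from h)]
  · rw [if_neg h, Set.indicator_of_notMem (show ω ∉ all A T from h)]

theorem int_pow (hA : IsModel μ p A) (v : ℝ) (m h : ℕ) :
    Integrable (fun ω => v ^ cnt (A ω) m h) μ := by
  simp_rw [pow_cnt']
  exact integrable_finsetSum _ fun T _ => (int_all hA T).const_mul _

/-- the moment generating function -/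
theorem mgf (hA : IsModel μ p A) (v : ℝ) (m h : ℕ) :
    ∫ ω, v ^ cnt (A ω) m h ∂μ = ∏ i ∈ Ioc m (m + h), (1 + (v - 1) * p i) := by
  simp_rw [pow_cnt']
  rw [integral_finsetSum _ fun T _ => (int_all hA T).const_mul _, prod_one_add]
  refine sum_congr rfl fun T _ => ?_
  rw [integral_const_mul, integral_indicator (meas_all hA T), setIntegral_const, smul_eq_mul, mul_one,
    real_all hA, ← prod_mul_distrib]

theorem mgf_le (hA : IsModel μ p A) {v : ℝ} (hv : 0 ≤ v) (m h : ℕ) :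
    ∫ ω, v ^ cnt (A ω) m h ∂μ ≤ Real.exp ((v - 1) * ∑ i ∈ Ioc m (m + h), p i) := by
  rw [mgf hA, mul_sum, Real.exp_sum]
  refine prod_le_prod (fun i _ => ?_) fun i _ => ?_
  · have h0 := p_nonneg hA i
    have h1 := p_le_one hA i
    nlinarith [mul_nonneg hv h0]
  · have := Real.add_one_le_exp ((v - 1) * p i)
    linarith

/-- lower bound, if all probabilities are at most `η` -/
theorem le_mgf (hA : IsModel μ p A) {v η : ℝ} (m h : ℕ) (hη : ∀ i ∈ Ioc m (m + h), p i ≤ η)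
    (hv : |v - 1| * η ≤ 1 / 2) :
    Real.exp ((v - 1) * (∑ i ∈ Ioc m (m + h), p i) -
        2 * (v - 1) ^ 2 * η * ∑ i ∈ Ioc m (m + h), p i) ≤
      ∫ ω, v ^ cnt (A ω) m h ∂μ := by
  rw [mgf hA, ← sub_mul, mul_sum, Real.exp_sum]
  refine prod_le_prod (fun i _ => (Real.exp_pos _).le) fun i hi => ?_
  have h0 := p_nonneg hA i
  have h1 := hη i hi
  set y := (v - 1) * p i with hy
  have h2 : |y| ≤ 1 / 2 := by
    rw [hy, abs_mul, abs_of_nonneg h0]
    exact (mul_le_mul_of_nonneg_left h1 (abs_nonneg _)).trans hv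
  have h3 : y ^ 2 ≤ (v - 1) ^ 2 * η * p i := by
    rw [hy, mul_pow, sq (p i), mul_assoc]
    exact mul_le_mul_of_nonneg_left (by nlinarith) (sq_nonneg _)
  have h4 : (v - 1 - 2 * (v - 1) ^ 2 * η) * p i ≤ y - 2 * y ^ 2 := by
    have : (v - 1 - 2 * (v - 1) ^ 2 * η) * p i = y - 2 * ((v - 1) ^ 2 * η * p i) := by rw [hy]; ring
    linarith
  refine (Real.exp_le_exp.2 h4).trans ?_
  obtain ⟨h5, h6⟩ := abs_le.1 h2
  have h7 : 0 < 1 + y := by linarith
  rw [← Real.le_log_iff_exp_le h7]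
  have h8 := Real.abs_log_sub_add_sum_range_le (x := -y) (by rw [abs_neg]; linarith) 1
  rw [abs_neg] at h8
  simp only [range_one, sum_singleton, zero_add, pow_one, Nat.cast_zero, div_one, sub_neg_eq_add,
    Nat.reduceAdd, sq_abs] at h8
  have h9 : y ^ 2 / (1 - |y|) ≤ 2 * y ^ 2 := by
    rw [div_le_iff₀ (by linarith)]
    nlinarith [sq_nonneg y]
  have h10 := (abs_le.1 (h8.trans h9)).1
  linarith

/-! ## The mean -/

theorem log_bounds {x : ℝ} (hx : 2 ≤ x) {m : ℕ} (h1 : x - 1 < m) (h2 : (m : ℝ) ≤ 2 * x) :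
    |Real.log m - Real.log x| ≤ Real.log 2 := by
  have hm : (0 : ℝ) < m := by linarith
  have hx0 : 0 < x := by linarith
  rw [abs_le]
  constructor
  · have : x ≤ 2 * m := by linarith
    have h3 := Real.log_le_log hx0 this
    rw [Real.log_mul (by norm_num) hm.ne'] at h3
    linarith
  · have h3 := Real.log_le_log hm h2
    rw [Real.log_mul (by norm_num) hx0.ne'] at h3
    linarith

theorem floor_diff {s t : ℝ} (ht : 0 ≤ t) (hst : t ≤ s) : (⌊s⌋₊ : ℝ) - ⌊t⌋₊ ≤ s - t + 1 := by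
  have h1 := Nat.floor_le (ht.trans hst)
  have h2 := Nat.lt_floor_add_one t
  linarith

theorem sum_diff {p : ℕ → ℝ} {m h h' : ℕ} {η : ℝ} (hp : ∀ i, 0 ≤ p i) (hη : ∀ i, m < i → p i ≤ η)
    (hh : h ≤ h') :
    |(∑ i ∈ Ioc m (m + h'), p i) - ∑ i ∈ Ioc m (m + h), p i| ≤ η * ((h' : ℝ) - h) := by
  have h1 : Ioc m (m + h) ⊆ Ioc m (m + h') := Ioc_subset_Ioc_right (by omega)
  rw [← sum_sdiff h1, add_sub_cancel_right, abs_of_nonneg (sum_nonneg fun i _ => hp i)]
  have h2 : ∑ i ∈ Ioc m (m + h') \ Ioc m (m + h), p i ≤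
      ∑ _i ∈ Ioc m (m + h') \ Ioc m (m + h), η := by
    refine sum_le_sum fun i hi => hη i ?_
    exact (mem_Ioc.1 (mem_sdiff.1 hi).1).1
  refine h2.trans ?_
  rw [sum_const, nsmul_eq_mul, card_sdiff_of_subset h1, Nat.card_Ioc, Nat.card_Ioc,
    Nat.add_sub_cancel_left, Nat.add_sub_cancel_left, Nat.cast_sub hh, mul_comm]

theorem sum_diff' {p : ℕ → ℝ} {m h h' : ℕ} {η : ℝ} (hp : ∀ i, 0 ≤ p i) (hη : ∀ i, m < i → p i ≤ η) :
    |(∑ i ∈ Ioc m (m + h'), p i) - ∑ i ∈ Ioc m (m + h), p i| ≤ η * |(h' : ℝ) - h| := by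
  rcases le_total h h' with hh | hh
  · rw [abs_of_nonneg (a := (h' : ℝ) - h) (by
      rw [sub_nonneg]; exact_mod_cast hh)]
    exact sum_diff hp hη hh
  · rw [abs_sub_comm, abs_sub_comm (h' : ℝ), abs_of_nonneg (a := (h : ℝ) - h') (by
      rw [sub_nonneg]; exact_mod_cast hh)]
    exact sum_diff hp hη hh

theorem floor_abs {s t : ℝ} (hs : 0 ≤ s) (ht : 0 ≤ t) : |(⌊s⌋₊ : ℝ) - ⌊t⌋₊| ≤ |s - t| + 1 := by
  rcases le_total t s with h | h
  · rw [abs_of_nonneg (sub_nonneg.2 h), abs_of_nonneg (sub_nonneg.2 (by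
      exact_mod_cast Nat.floor_le_floor h))]
    exact floor_diff ht h
  · rw [abs_sub_comm, abs_sub_comm s, abs_of_nonneg (sub_nonneg.2 h), abs_of_nonneg (sub_nonneg.2 (by
      exact_mod_cast Nat.floor_le_floor h))]
    exact floor_diff hs h

/-- for large `x` the probabilities beyond `x - 1` are small -/
theorem small_p {p : ℕ → ℝ} (hp : Tendsto p atTop (𝓝 0)) {η : ℝ} (hη : 0 < η) :
    ∀ᶠ x : ℝ in atTop, ∀ m : ℕ, x - 1 < m → ∀ i, m < i → p i ≤ η := by
  obtain ⟨N, hN⟩ := eventually_atTop.1 (hp.eventually_le_const hη)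
  filter_upwards [eventually_ge_atTop ((N : ℝ) + 1)] with x hx m hm i hi
  apply hN
  have : (N : ℝ) < m := by linarith
  have h2 : N < m := by exact_mod_cast this
  omega

/-- the mean of the number of elements of a window -/
theorem mean {p : ℕ → ℝ} (hR : Regular p) (hp : ∀ i, 0 ≤ p i) {a η : ℝ} (ha : 0 < a) (hη : 0 < η) :
    ∀ᶠ x : ℝ in atTop, ∀ m : ℕ, x - 1 < m → (m : ℝ) ≤ 2 * x →
      |(∑ i ∈ Ioc m (m + ⌊a * Real.log x ^ 2⌋₊), p i) - a * Real.log x| ≤ η * Real.log x := by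
  have hl2 : 0 < Real.log 2 := Real.log_pos (by norm_num)
  -- the window with `log m`
  set C : ℝ := a * Real.log 2 * (2 + Real.log 2) + 1 with hC
  have hC0 : 0 < C := by positivity
  obtain ⟨N, hN⟩ := eventually_atTop.1 (Metric.tendsto_nhds.1 (hR.2 a ha) (η / 8) (by positivity))
  filter_upwards [small_p hR.1 (show 0 < η / (4 * C) by positivity), eventually_ge_atTop ((N : ℝ) + 1),
    eventually_ge_atTop 2, Real.tendsto_log_atTop.eventually_ge_atTop 1,
    Real.tendsto_log_atTop.eventually_ge_atTop (2 * Real.log 2),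
    Real.tendsto_log_atTop.eventually_ge_atTop (4 * (a * Real.log 2) / η)] with x hs hxN hx2 hL1 hL2 hL3 m hm1 hm2
  have hNm : N ≤ m := by
    have : (N : ℝ) < m := by linarith
    exact (by exact_mod_cast this : N < m).le
  have h1 := hN m hNm
  have hb := log_bounds hx2 hm1 hm2
  obtain ⟨b1, b2⟩ := abs_le.1 hb
  set L := Real.log x with hL
  set M := Real.log m with hM
  have hMp : 0 < M := by linarith
  rw [Real.dist_eq] at h1
  -- `|Λ - a M| ≤ η/8 * M`
  have h2 : |(∑ n ∈ Ioc m (m + ⌊a * M ^ 2⌋₊), p n) - a * M| ≤ η / 8 * M := by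
    have h3 : (∑ n ∈ Ioc m (m + ⌊a * M ^ 2⌋₊), p n) - a * M =
        ((∑ n ∈ Ioc m (m + ⌊a * M ^ 2⌋₊), p n) / M - a) * M := by
      field_simp
    rw [h3, abs_mul, abs_of_pos hMp]
    exact mul_le_mul_of_nonneg_right h1.le hMp.le
  have h3 := sum_diff' (h := ⌊a * M ^ 2⌋₊) (h' := ⌊a * L ^ 2⌋₊) hp (hs m hm1)
  have h4 : |(⌊a * L ^ 2⌋₊ : ℝ) - ⌊a * M ^ 2⌋₊| ≤ C * L := by
    refine (floor_abs (by positivity) (by positivity)).trans ?_
    have h5 : a * L ^ 2 - a * M ^ 2 = a * (L - M) * (L + M) := by ring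
    rw [h5, abs_mul, abs_mul, abs_of_pos ha, abs_of_pos (by linarith : 0 < L + M), abs_sub_comm]
    have h6 : a * |M - L| * (L + M) ≤ a * Real.log 2 * ((2 + Real.log 2) * L) := by
      refine mul_le_mul (mul_le_mul_of_nonneg_left hb ha.le) ?_ (by linarith) (by positivity)
      nlinarith
    rw [hC]
    nlinarith
  have h5 : η / (4 * C) * |(⌊a * L ^ 2⌋₊ : ℝ) - ⌊a * M ^ 2⌋₊| ≤ η / 4 * L := by
    refine (mul_le_mul_of_nonneg_left h4 (by positivity)).trans (le_of_eq ?_)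
    field_simp
  have h6 : η / 8 * M ≤ η / 4 * L := by nlinarith
  have h7 : |a * M - a * L| ≤ η / 4 * L := by
    rw [← mul_sub, abs_mul, abs_of_pos ha]
    refine (mul_le_mul_of_nonneg_left hb ha.le).trans ?_
    rw [div_le_iff₀ hη] at hL3
    linarith
  calc |(∑ i ∈ Ioc m (m + ⌊a * L ^ 2⌋₊), p i) - a * L|
      = |((∑ i ∈ Ioc m (m + ⌊a * L ^ 2⌋₊), p i) - ∑ i ∈ Ioc m (m + ⌊a * M ^ 2⌋₊), p i) +
          ((∑ i ∈ Ioc m (m + ⌊a * M ^ 2⌋₊), p i) - a * M) + (a * M - a * L)| := by congr 1; ring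
    _ ≤ η / 4 * L + η / 4 * L + η / 4 * L :=
        (abs_add_le _ _).trans (add_le_add ((abs_add_le _ _).trans
          (add_le_add (h3.trans h5) (h2.trans h6))) h7)
    _ ≤ η * L := by nlinarith

end Pool.Agent.Q53.SM
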