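import Pool.Agent.Q120.SM.Stm

/-!
# Project SM (helper120), job REG: the sieved models are regular
-/

set_option autoImplicit false

namespace Pool.Agent.Q53.SM

open Finset Filter Topology Pool.Agent.Q120.GM Pool.Agent.Q120.SM

/-- exact count over full periods -/
theorem count_periods (Q k q : ℕ) :
    ((Ico k (k + q * Q)).filter fun n => n.Coprime Q).card = q * Nat.totient Q := by
  induction q with
  | zero => simp
  | succ q ih =>
    have h1 : Ico k (k + (q + 1) * Q) = Ico k (k + q * Q) ∪ Ico (k + q * Q) (k + q * Q + Q) := by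
      rw [Ico_union_Ico_eq_Ico (by omega) (by omega)]
      congr 1
      ring
    have h2 : Disjoint ((Ico k (k + q * Q)).filter fun n => n.Coprime Q)
        ((Ico (k + q * Q) (k + q * Q + Q)).filter fun n => n.Coprime Q) :=
      disjoint_filter_filter (Ico_disjoint_Ico_consecutive _ _ _)
    rw [h1, filter_union, card_union_of_disjoint h2, ih]
    have h3 := Nat.filter_coprime_Ico_eq_totient Q (k + q * Q)
    have h4 : ((Ico (k + q * Q) (k + q * Q + Q)).filter fun n => n.Coprime Q) =
        ((Ico (k + q * Q) (k + q * Q + Q)).filter fun n => Q.Coprime n) := by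
      refine filter_congr fun n _ => ?_
      rw [Nat.coprime_comm]
    rw [h4, h3]
    ring

/-- number of the integers coprime to `Q` in `(m, m + h]`, times `Q / φ(Q)` -/
theorem count_window {Q : ℕ} (hQ : 1 ≤ Q) (m h : ℕ) :
    (h : ℝ) - Q ≤ ((Ioc m (m + h)).filter fun n => n.Coprime Q).card * ((Q : ℝ) / Nat.totient Q) ∧
    ((Ioc m (m + h)).filter fun n => n.Coprime Q).card * ((Q : ℝ) / Nat.totient Q) ≤ (h : ℝ) + Q := by
  have hf : 0 < Nat.totient Q := Nat.totient_pos.2 (by omega)
  have hf' : (0 : ℝ) < Nat.totient Q := by exact_mod_cast hf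
  have hQ' : (0 : ℝ) < Q := by exact_mod_cast hQ
  have e : Ioc m (m + h) = Ico (m + 1) (m + 1 + h) := by
    ext n
    rw [mem_Ioc, mem_Ico]
    omega
  have hd : Q * (h / Q) ≤ h := Nat.mul_div_le h Q
  have hd2 : h < Q * (h / Q + 1) := Nat.lt_mul_div_succ h (by omega)
  have c1 : h / Q * Nat.totient Q ≤ ((Ioc m (m + h)).filter fun n => n.Coprime Q).card := by
    rw [← count_periods Q (m + 1) (h / Q), e]
    refine card_le_card (filter_subset_filter _ (Ico_subset_Ico_right ?_))
    rw [mul_comm]
    omega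
  have c2 : ((Ioc m (m + h)).filter fun n => n.Coprime Q).card ≤ (h / Q + 1) * Nat.totient Q := by
    rw [← count_periods Q (m + 1) (h / Q + 1), e]
    refine card_le_card (filter_subset_filter _ (Ico_subset_Ico_right ?_))
    rw [mul_comm (h / Q + 1)]
    omega
  set c := ((Ioc m (m + h)).filter fun n => n.Coprime Q).card with hc
  have c1' : ((h / Q : ℕ) : ℝ) * Nat.totient Q ≤ c := by exact_mod_cast c1
  have c2' : (c : ℝ) ≤ (((h / Q : ℕ) : ℝ) + 1) * Nat.totient Q := by exact_mod_cast c2
  have hd' : (Q : ℝ) * ((h / Q : ℕ) : ℝ) ≤ h := by exact_mod_cast hd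
  have hd2' : (h : ℝ) < Q * (((h / Q : ℕ) : ℝ) + 1) := by exact_mod_cast hd2
  constructor
  · have h1 := mul_le_mul_of_nonneg_right c1' (div_pos hQ' hf').le
    have h2 : ((h / Q : ℕ) : ℝ) * Nat.totient Q * ((Q : ℝ) / Nat.totient Q) = Q * ((h / Q : ℕ) : ℝ) := by
      field_simp
    rw [h2] at h1
    linarith
  · have h1 := mul_le_mul_of_nonneg_right c2' (div_pos hQ' hf').le
    have h2 : (((h / Q : ℕ) : ℝ) + 1) * Nat.totient Q * ((Q : ℝ) / Nat.totient Q) =
        Q * (((h / Q : ℕ) : ℝ) + 1) := by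
      field_simp
    rw [h2] at h1
    linarith

theorem level_tendsto {Q : ℕ} (hQ : 1 ≤ Q) : Tendsto (level Q) atTop (𝓝 0) := by
  have h1 : Tendsto (fun n : ℕ => (Q : ℝ) / Nat.totient Q / Real.log n) atTop (𝓝 0) :=
    (Real.tendsto_log_atTop.comp tendsto_natCast_atTop_atTop).const_div_atTop _
  refine squeeze_zero (level_nonneg Q) (fun n => ?_) h1
  unfold level
  split_ifs
  · exact min_le_right _ _
  · have := Real.log_natCast_nonneg n
    positivity

theorem t_REG : J_REG := by
  intro Q hQ
  refine ⟨level_tendsto hQ, fun a ha => ?_⟩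
  have hf : 0 < Nat.totient Q := Nat.totient_pos.2 (by omega)
  have hf' : (0 : ℝ) < Nat.totient Q := by exact_mod_cast hf
  have hQ' : (0 : ℝ) < Q := by exact_mod_cast hQ
  set C : ℝ := (Q : ℝ) / Nat.totient Q with hC
  have hC0 : 0 < C := by positivity
  have hl2 : 0 < Real.log 2 := Real.log_pos (by norm_num)
  have hlog : Tendsto (fun m : ℕ => Real.log m) atTop atTop :=
    Real.tendsto_log_atTop.comp tendsto_natCast_atTop_atTop
  -- lower and upper functions
  have hlo : Tendsto (fun m : ℕ => (a - (1 + Q) / Real.log m ^ 2) * (1 - Real.log 2 / Real.log m)) atTop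
      (𝓝 a) := by
    have h1 : Tendsto (fun m : ℕ => (1 + Q : ℝ) / Real.log m ^ 2) atTop (𝓝 0) :=
      ((tendsto_pow_atTop (two_ne_zero)).comp hlog).const_div_atTop _
    have h2 : Tendsto (fun m : ℕ => Real.log 2 / Real.log m) atTop (𝓝 0) := hlog.const_div_atTop _
    have h3 := (h1.const_sub a).mul (h2.const_sub 1)
    simpa using h3
  have hhi : Tendsto (fun m : ℕ => a + Q / Real.log m ^ 2) atTop (𝓝 a) := by
    have h1 : Tendsto (fun m : ℕ => (Q : ℝ) / Real.log m ^ 2) atTop (𝓝 0) :=
      ((tendsto_pow_atTop (two_ne_zero)).comp hlog).const_div_atTop _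
    simpa using h1.const_add a
  -- size of the window
  have hsm : ∀ᶠ m : ℕ in atTop, a * Real.log m ^ 2 ≤ m := by
    have h1 := (isLittleO_log_rpow_rpow_atTop (2 : ℝ) (show (0 : ℝ) < 1 by norm_num)).bound
      (show 0 < 1 / a by positivity)
    filter_upwards [tendsto_natCast_atTop_atTop.eventually h1, eventually_ge_atTop 1] with m hm hm1
    have hm0 : (0 : ℝ) ≤ m := Nat.cast_nonneg m
    have hl : 0 ≤ Real.log m := Real.log_natCast_nonneg m
    rw [Real.norm_of_nonneg (by positivity), Real.norm_of_nonneg (by positivity), Real.rpow_one] at hm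
    rw [show (2 : ℝ) = ((2 : ℕ) : ℝ) by norm_num, Real.rpow_natCast] at hm
    have := mul_le_mul_of_nonneg_left hm ha.le
    rwa [← mul_assoc, mul_one_div_cancel ha.ne', one_mul] at this
  refine tendsto_of_tendsto_of_tendsto_of_le_of_le' hlo hhi ?_ ?_
  all_goals
    filter_upwards [hsm, eventually_ge_atTop 2, hlog.eventually_ge_atTop 1, hlog.eventually_ge_atTop C,
      hlog.eventually_ge_atTop (Real.log 2), hlog.eventually_ge_atTop ((1 + Q) / a)] with m hm hm2 hL1 hLC hL2 hLa
  all_goals
    have hm0 : (0 : ℝ) < m := by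
      have : 0 < m := by omega
      exact_mod_cast this
    set L := Real.log m with hL
    set h := ⌊a * L ^ 2⌋₊ with hh
    have hL0 : 0 < L := by linarith
    have f1 : (h : ℝ) ≤ a * L ^ 2 := Nat.floor_le (by positivity)
    have f2 : a * L ^ 2 - 1 ≤ h := by
      have := Nat.lt_floor_add_one (a * L ^ 2)
      linarith
    obtain ⟨w1, w2⟩ := count_window hQ m h
    rw [← hC] at w1 w2
    set c := ((Ioc m (m + h)).filter fun n => n.Coprime Q).card with hc
    -- the values of `level`
    have hlog1 : ∀ n ∈ Ioc m (m + h), L ≤ Real.log n ∧ Real.log n ≤ L + Real.log 2 := by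
      intro n hn
      rw [mem_Ioc] at hn
      have n1 : (m : ℝ) ≤ n := by exact_mod_cast hn.1.le
      have n2 : (n : ℝ) ≤ m + h := by exact_mod_cast hn.2
      refine ⟨Real.log_le_log hm0 n1, ?_⟩
      have n3 : (n : ℝ) ≤ m * 2 := by linarith
      have := Real.log_le_log (by linarith) n3
      rwa [Real.log_mul hm0.ne' (by norm_num)] at this
    have hlev : ∀ n ∈ Ioc m (m + h), level Q n = if n.Coprime Q then C / Real.log n else 0 := by
      intro n hn
      have h1 := (hlog1 n hn).1
      have h2 : 0 < Real.log n := by linarith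
      unfold level
      split_ifs
      · rw [min_eq_right]
        rw [div_le_one h2]
        linarith
      · rfl
    have hsum : ∑ n ∈ Ioc m (m + h), level Q n =
        ∑ n ∈ (Ioc m (m + h)).filter (fun n => n.Coprime Q), C / Real.log n := by
      rw [sum_congr rfl hlev, sum_filter]
  · -- lower bound
    have s1 : (c : ℝ) * (C / (L + Real.log 2)) ≤ ∑ n ∈ Ioc m (m + h), level Q n := by
      rw [hsum, ← nsmul_eq_mul]
      refine card_nsmul_le_sum _ _ _ fun n hn => ?_
      rw [mem_filter] at hn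
      have h1 := hlog1 n hn.1
      exact div_le_div_of_nonneg_left hC0.le (by linarith) h1.2
    rw [le_div_iff₀ hL0]
    refine le_trans ?_ s1
    have h1 : (c : ℝ) * (C / (L + Real.log 2)) = c * C / (L + Real.log 2) := by ring
    rw [h1, le_div_iff₀ (by linarith)]
    have hLa' : 1 + Q ≤ a * L := by
      rw [div_le_iff₀ ha] at hLa
      linarith
    have h2 : 0 ≤ a * L ^ 2 - (1 + Q) := by nlinarith
    have h3 : (a - (1 + Q) / L ^ 2) * (1 - Real.log 2 / L) * L * (L + Real.log 2) =
        (a * L ^ 2 - (1 + Q)) * (1 - (Real.log 2 / L) ^ 2) := by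
      field_simp
      ring
    rw [h3]
    have h4 : (a * L ^ 2 - (1 + Q)) * (1 - (Real.log 2 / L) ^ 2) ≤ a * L ^ 2 - (1 + Q) := by
      have h5 := mul_nonneg h2 (sq_nonneg (Real.log 2 / L))
      nlinarith
    linarith
  · have s1 : ∑ n ∈ Ioc m (m + h), level Q n ≤ (c : ℝ) * (C / L) := by
      rw [hsum, ← nsmul_eq_mul]
      refine sum_le_card_nsmul _ _ _ fun n hn => ?_
      rw [mem_filter] at hn
      have h1 := hlog1 n hn.1
      exact div_le_div_of_nonneg_left hC0.le hL0 h1.1
    rw [div_le_iff₀ hL0]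
    refine s1.trans ?_
    have h1 : (a + Q / L ^ 2) * L = (a * L ^ 2 + Q) / L := by
      field_simp
    rw [h1, ← mul_div_assoc]
    refine div_le_div_of_nonneg_right ?_ hL0.le
    linarith

end Pool.Agent.Q53.SM
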